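import Pool.Agent.Helper53.CTG.Goals

/-!
# Project CTG (MP_8b4d68_lc), packet KC: completeness, one level up
-/

set_option autoImplicit false

namespace Pool.Agent.Helper26.CTG

open Pool.Agent.Helper1.TE (Gad app cif)
open Pool.Agent.Helper53.CTG

section regs

variable {Z : Type} (C : ℕ → Z) (e i : ℕ)

/-- The registers `C` with the contents `a, b, d, h` of `e, e + 1, e + 2, e + 3` and `w` of `i`. -/
def R (a b d h w : Z) : ℕ → Z := fun j =>
  if j = e then a else if j = e + 1 then b else if j = e + 2 then d else if j = e + 3 then h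
  else if j = i then w else C j

variable {C e i} {a b d h w : Z}

theorem R_e : R C e i a b d h w e = a := by simp [R]

theorem R_e1 : R C e i a b d h w (e + 1) = b := by simp [R]

theorem R_e2 : R C e i a b d h w (e + 2) = d := by simp [R]

theorem R_e3 : R C e i a b d h w (e + 3) = h := by simp [R]

theorem R_i (h0 : i ≠ e) (h1 : i ≠ e + 1) (h2 : i ≠ e + 2) (h3 : i ≠ e + 3) :
    R C e i a b d h w i = w := by
  simp [R, h0, h1, h2, h3]

theorem upd_e (a' : Z) : Function.update (R C e i a b d h w) e a' = R C e i a' b d h w := by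
  funext j
  by_cases hj : j = e
  · subst hj; simp [R]
  · simp [R, hj]

theorem upd_e1 (b' : Z) :
    Function.update (R C e i a b d h w) (e + 1) b' = R C e i a b' d h w := by
  funext j
  by_cases hj : j = e + 1
  · subst hj; simp [R]
  · simp [R, hj]

theorem upd_e2 (d' : Z) :
    Function.update (R C e i a b d h w) (e + 2) d' = R C e i a b d' h w := by
  funext j
  by_cases hj : j = e + 2
  · subst hj; simp [R]
  · simp [R, hj]

theorem upd_e3 (h' : Z) :
    Function.update (R C e i a b d h w) (e + 3) h' = R C e i a b d h' w := by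
  funext j
  by_cases hj : j = e + 3
  · subst hj; simp [R]
  · simp [R, hj]

theorem upd_i (h0 : i ≠ e) (h1 : i ≠ e + 1) (h2 : i ≠ e + 2) (h3 : i ≠ e + 3) (w' : Z) :
    Function.update (R C e i a b d h w) i w' = R C e i a b d h w' := by
  funext j
  by_cases hj : j = i
  · subst hj; simp [R, h0, h1, h2, h3]
  · simp [R, hj]

theorem R_self : R C e i (C e) (C (e + 1)) (C (e + 2)) (C (e + 3)) (C i) = C := by
  funext j
  unfold R
  split_ifs with h1 h2 h3 h4 h5
  · rw [h1]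
  · rw [h2]
  · rw [h3]
  · rw [h4]
  · rw [h5]
  · rfl

theorem R_V (V : Z → Prop) (hC : ∀ j, V (C j)) (ha : V a) (hb : V b) (hd : V d) (hh : V h)
    (hw : V w) : ∀ j, V (R C e i a b d h w j) := by
  intro j
  unfold R
  split_ifs
  · exact ha
  · exact hb
  · exact hd
  · exact hh
  · exact hw
  · exact hC j

end regs

section enc

theorem enc_lt {K y z : ℕ} (hy : y < K) (hz : z < K) : y * K + z < K ^ 2 := by
  have h1 : y + 1 ≤ K := hy
  have h2 : (y + 1) * K ≤ K * K := Nat.mul_le_mul_right K h1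
  nlinarith

theorem gA_enc {K a y z : ℕ} (hy : y < K) (hz : z < K) : gA K (enc K a y z) = a := by
  have hK : 0 < K ^ 2 := by
    have : 0 < K := by omega
    positivity
  unfold gA enc
  rw [Nat.add_assoc, Nat.add_comm, Nat.add_mul_div_right _ _ hK,
    Nat.div_eq_of_lt (enc_lt hy hz), Nat.zero_add]

theorem enc_div {K a y z : ℕ} (hz : z < K) : enc K a y z / K = a * K + y := by
  have hK : 0 < K := by omega
  have h : enc K a y z = z + (a * K + y) * K := by unfold enc; ring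
  rw [h, Nat.add_mul_div_right _ _ hK, Nat.div_eq_of_lt hz, Nat.zero_add]

theorem gY_enc {K a y z : ℕ} (hy : y < K) (hz : z < K) : gY K (enc K a y z) = y := by
  unfold gY
  rw [enc_div hz, Nat.add_comm, Nat.add_mul_mod_self_right, Nat.mod_eq_of_lt hy]

theorem gZ_enc {K a y z : ℕ} (hz : z < K) : gZ K (enc K a y z) = z := by
  have h : enc K a y z = z + (a * K + y) * K := by unfold enc; ring
  unfold gZ
  rw [h, Nat.add_mul_mod_self_right, Nat.mod_eq_of_lt hz]

theorem nrm0 (K a : ℕ) : nrm K 0 (enc K a 0 0) :=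
  ⟨fun _ => by simp [enc], fun h => absurd h (by norm_num)⟩

theorem nrm1 (K a y : ℕ) : nrm K 1 (enc K a y 0) :=
  ⟨fun h => absurd h (by norm_num), fun _ => by
    have h : enc K a y 0 = 0 + (a * K + y) * K := by unfold enc; ring
    rw [h, Nat.add_mul_mod_self_right]; simp⟩

theorem nrm2 (K G : ℕ) : nrm K 2 G :=
  ⟨fun h => absurd h (by norm_num), fun h => absurd h (by norm_num)⟩

end enc

section

variable {Z : Type} {g : Gad Z}

theorem shl_V (hg : OK9 g) {p : ℕ} (hp : p < g.K) :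
    ∀ (k : ℕ) (z : Z), g.V z → g.V (shl g (List.replicate k p) z) := by
  intro k
  induction k with
  | zero => intro z hz; exact hz
  | succ k ih =>
    intro z hz
    rw [List.replicate_succ]
    exact ih (g.sh p z) (hg.sh_V p hp z hz)

variable {tst : ℕ → ℕ} {t : ℕ → ℕ → ℕ → ℕ → ℕ → ℕ} {q c : ℕ}

theorem ev_lt {K : ℕ} (ht : ∀ m v x y z, t m v x y z < K) (n v x : ℕ) : ev t q c n v x < K := by
  cases n with
  | zero => exact ht _ _ _ _ _
  | succ n => exact ht _ _ _ _ _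

theorem exec3 {m e f v j T G : ℕ} {C : ℕ → Z} {A : ℕ} (hn : nrm g.K m G) :
    exec g tst t c (3, m, e, f, v, j, T) G (C, A) =
      (app g tst T (t m v (gA g.K G) (gY g.K G) (gZ g.K G)) (C j)).map fun z =>
        (Function.update (rd g m e f G C) j z, A) := by
  unfold exec
  simp only [De.k, De.m, De.v, De.i, De.T, De.e, De.f]
  rw [if_neg (by norm_num), if_neg (by norm_num), if_neg (by norm_num), if_pos hn,
    if_pos trivial]

variable {C : ℕ → Z} {e i n A : ℕ} {a b d h w : Z} {γ : ℕ → ℕ}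

theorem run0 (hE : Elem) {T v x : ℕ} {h' : Z} (hK : 1 ≤ g.K) (h0 : γ 0 = enc g.K x 0 0)
    (h1 : ∀ τ, 0 < τ → τ < 13 ^ n → γ τ = 0)
    (happ : app g tst T (t 0 v x 0 0) h = some h') :
    Rn g tst t q c (3, 0, e, 0, v, e + 3, T) n γ (R C e i a b d h w, A) =
      some (R C e i (g.sh x a) b d h' w, A) := by
  refine (hE.1 g tst t q c (3, 0, e, 0, v, e + 3, T) n γ _ _
    (Or.inr (show (3 : ℕ) ≠ 0 by norm_num))).2 ⟨?_, h1⟩
  rw [h0, exec3 (nrm0 _ _), gA_enc hK hK, gY_enc hK hK, gZ_enc hK, R_e3, happ, Option.map_some]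
  unfold rd
  rw [if_pos rfl, gA_enc hK hK, R_e, upd_e, upd_e3]

theorem run1 (hE : Elem) {T v x y : ℕ} {h' : Z} (hy : y < g.K) (h0 : γ 0 = enc g.K x y 0)
    (h1 : ∀ τ, 0 < τ → τ < 13 ^ n → γ τ = 0)
    (happ : app g tst T (t 1 v x y 0) h = some h') :
    Rn g tst t q c (3, 1, e, e + 1, v, e + 3, T) n γ (R C e i a b d h w, A) =
      some (R C e i (g.sh x a) (g.sh y b) d h' w, A) := by
  have hK : 0 < g.K := by omega
  refine (hE.1 g tst t q c (3, 1, e, e + 1, v, e + 3, T) n γ _ _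
    (Or.inr (show (3 : ℕ) ≠ 0 by norm_num))).2 ⟨?_, h1⟩
  rw [h0, exec3 (nrm1 _ _ _), gA_enc hy hK, gY_enc hy hK, gZ_enc hK, R_e3, happ,
    Option.map_some]
  unfold rd
  rw [if_neg (by norm_num), if_pos rfl, gA_enc hy hK, gY_enc hy hK, R_e, R_e1, upd_e, upd_e1,
    upd_e3]

theorem run2 (hE : Elem) {T v x y z : ℕ} {w' : Z} (hy : y < g.K) (hz : z < g.K)
    (i0 : i ≠ e) (i1 : i ≠ e + 1) (i2 : i ≠ e + 2) (i3 : i ≠ e + 3)
    (h0 : γ 0 = enc g.K x y z) (h1 : ∀ τ, 0 < τ → τ < 13 ^ n → γ τ = 0)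
    (happ : app g tst T (t 2 v x y z) w = some w') :
    Rn g tst t q c (3, 2, e, e + 1, v, i, T) n γ (R C e i a b d h w, A) =
      some (R C e i (g.sh x a) (shl g (List.replicate 5 y) b) (shl g (List.replicate 9 z) d)
        h w', A) := by
  refine (hE.1 g tst t q c (3, 2, e, e + 1, v, i, T) n γ _ _
    (Or.inr (show (3 : ℕ) ≠ 0 by norm_num))).2 ⟨?_, h1⟩
  rw [h0, exec3 (nrm2 _ _), gA_enc hy hz, gY_enc hy hz, gZ_enc hz, R_i i0 i1 i2 i3, happ,
    Option.map_some]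
  unfold rd
  rw [if_neg (by norm_num), if_neg (by norm_num), gA_enc hy hz, gY_enc hy hz, gZ_enc hz, R_e,
    R_e1, show e + 1 + 1 = e + 2 from rfl, R_e2, upd_e, upd_e1, upd_e2, upd_i i0 i1 i2 i3]

end

/-- The right guesses, first digit `d`. -/
theorem can_digit (K : ℕ) (t : ℕ → ℕ → ℕ → ℕ → ℕ → ℕ) (q c m u v X d τ : ℕ) (hu : 1 ≤ u)
    (huq : u < q) (hτ : τ < 13 ^ ((q + 1) * m + u)) :
    can K t q c ((q + 1) * m + (u + 1)) v X (d * 13 ^ ((q + 1) * m + u) + τ) =
    if d = 1 ∨ d = 11 then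
      can K t q c ((q + 1) * m + u) (2 * v) (t 0 v X 0 0) τ
    else if d = 4 ∨ d = 8 then
      can K t q c ((q + 1) * m + u) (2 * v + 1)
        (t 1 v X (ev t q c (q * m + u) (2 * v) (t 0 v X 0 0)) 0) τ
    else if τ ≠ 0 then 0
    else if d = 0 ∨ d = 2 ∨ d = 10 ∨ 12 ≤ d then enc K X 0 0
    else if d = 6 then
      enc K X (ev t q c (q * m + u) (2 * v) (t 0 v X 0 0))
        (ev t q c (q * m + u) (2 * v + 1)
          (t 1 v X (ev t q c (q * m + u) (2 * v) (t 0 v X 0 0)) 0))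
    else enc K X (ev t q c (q * m + u) (2 * v) (t 0 v X 0 0)) 0 := by
  have hpos : 0 < 13 ^ ((q + 1) * m + u) := by positivity
  have h1 : (d * 13 ^ ((q + 1) * m + u) + τ) / 13 ^ ((q + 1) * m + u) = d := by
    rw [Nat.add_comm, Nat.add_mul_div_right _ _ hpos, Nat.div_eq_of_lt hτ, Nat.zero_add]
  have h2 : (d * 13 ^ ((q + 1) * m + u) + τ) % 13 ^ ((q + 1) * m + u) = τ := by
    rw [Nat.add_comm, Nat.add_mul_mod_self_right, Nat.mod_eq_of_lt hτ]
  have h3 : ((q + 1) * m + u) % (q + 1) = u := by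
    rw [Nat.mul_add_mod, Nat.mod_eq_of_lt (by omega)]
  have h4 : ((q + 1) * m + u) / (q + 1) = m := by
    rw [Nat.mul_add_div (by omega), Nat.div_eq_of_lt (by omega), Nat.add_zero]
  have h5 : ∀ y, cut q c (q * m + u) y = y := by
    intro y
    unfold cut
    rw [if_neg]
    rw [Nat.mul_add_mod, Nat.mod_eq_of_lt huq]
    omega
  rw [← Nat.add_assoc]
  conv_lhs => unfold can
  rw [h1, h2, h3, h4, if_neg (by omega)]
  simp only [h5]

theorem ev_up (t : ℕ → ℕ → ℕ → ℕ → ℕ → ℕ) (q c m u v X : ℕ) (hu : 1 ≤ u) (huq : u < q) :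
    ev t q c (q * m + (u + 1)) v X =
    t 2 v X (ev t q c (q * m + u) (2 * v) (t 0 v X 0 0))
      (ev t q c (q * m + u) (2 * v + 1)
        (t 1 v X (ev t q c (q * m + u) (2 * v) (t 0 v X 0 0)) 0)) := by
  have h5 : ∀ y, cut q c (q * m + u) y = y := by
    intro y
    unfold cut
    rw [if_neg]
    rw [Nat.mul_add_mod, Nat.mod_eq_of_lt huq]
    omega
  rw [← Nat.add_assoc]
  conv_lhs => unfold ev
  simp only [h5]

theorem gKC : GoalKC := by
  intro hB hE Z g hg tst t q c m u hT hu huq hKC γ v i T C A x w' hC hi hx hγ happ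
  have ht := hT.1
  obtain ⟨e, he⟩ : ∃ e, e = 3 * (q - (u + 1)) := ⟨_, rfl⟩
  have he3 : 3 * (q - u) = e + 3 := by omega
  rw [← he] at hi ⊢
  obtain ⟨n, hn⟩ : ∃ n, n = (q + 1) * m + u := ⟨_, rfl⟩
  obtain ⟨l, hl⟩ : ∃ l, l = t 0 v x 0 0 := ⟨_, rfl⟩
  obtain ⟨y, hy⟩ : ∃ y, y = ev t q c (q * m + u) (2 * v) l := ⟨_, rfl⟩
  obtain ⟨p, hp⟩ : ∃ p, p = t 1 v x y 0 := ⟨_, rfl⟩
  obtain ⟨z, hz⟩ : ∃ z, z = ev t q c (q * m + u) (2 * v + 1) p := ⟨_, rfl⟩
  have hllt : l < g.K := hl ▸ ht _ _ _ _ _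
  have hylt : y < g.K := hy ▸ ev_lt ht _ _ _
  have hplt : p < g.K := hp ▸ ht _ _ _ _ _
  have hzlt : z < g.K := hz ▸ ev_lt ht _ _ _
  rw [ev_up t q c m u v x hu huq, ← hl, ← hy, ← hp, ← hz] at happ
  have i0 : i ≠ e := by rcases hi with h | h | h <;> omega
  have i1 : i ≠ e + 1 := by rcases hi with h | h | h <;> omega
  have i2 : i ≠ e + 2 := by rcases hi with h | h | h <;> omega
  have i3 : i ≠ e + 3 := by rcases hi with h | h | h <;> omega
  have hK1 := hg.K_pos
  -- the guesses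
  have hG : ∀ d < 13, ∀ τ < 13 ^ n, γ (d * 13 ^ n + τ) =
      if d = 1 ∨ d = 11 then can g.K t q c n (2 * v) l τ
      else if d = 4 ∨ d = 8 then can g.K t q c n (2 * v + 1) p τ
      else if τ ≠ 0 then 0
      else if d = 0 ∨ d = 2 ∨ d = 10 ∨ 12 ≤ d then enc g.K x 0 0
      else if d = 6 then enc g.K x y z
      else enc g.K x y 0 := by
    intro d hd τ hτ
    rw [hn] at hτ ⊢
    have h1 : d * 13 ^ ((q + 1) * m + u) + τ < 13 ^ ((q + 1) * m + (u + 1)) := by
      rw [← Nat.add_assoc, pow_succ]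
      have h2 : (d + 1) * 13 ^ ((q + 1) * m + u) ≤ 13 * 13 ^ ((q + 1) * m + u) :=
        Nat.mul_le_mul_right _ (by omega)
      nlinarith
    rw [hγ _ h1, can_digit g.K t q c m u v x d τ hu huq hτ, ← hl, ← hy, ← hp, ← hz]
  have hpos : 0 < 13 ^ n := by positivity
  have hG0 : ∀ d < 13, (d ≠ 1 ∧ d ≠ 11) → (d ≠ 4 ∧ d ≠ 8) → ∀ τ, 0 < τ → τ < 13 ^ n →
      (fun τ => γ (d * 13 ^ n + τ)) τ = 0 := by
    intro d hd h1 h2 τ h3 h4
    show γ (d * 13 ^ n + τ) = 0
    rw [hG d hd τ h4, if_neg (by omega), if_neg (by omega), if_pos (by omega)]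
  -- the recursive phases
  have hL : ∀ (d₀ : ℕ) (T' : ℕ) (a b b' d h w : Z), d₀ = 1 ∨ d₀ = 11 →
      g.V a → g.V b → g.V d → g.V h → g.V w →
      app g tst T' y b = some b' →
      Rn g tst t q c (nod (2 * v) (e + 1) T') n (fun τ => γ (d₀ * 13 ^ n + τ))
        (R C e i a b d h w, A) =
        some (R C e i a b' d (shl g (List.replicate 9 l) h) w, A) := by
    intro d₀ T' a b b' d h w hd₀ ha hb hd hh hw h1
    have h3 := hKC (fun τ => γ (d₀ * 13 ^ n + τ)) (2 * v) (e + 1) T' (R C e i a b d h w) A l b'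
      (R_V g.V hC ha hb hd hh hw) (Or.inl (by omega)) hllt
      (by
        intro τ hτ
        rw [← hn] at hτ
        show γ (d₀ * 13 ^ n + τ) = _
        rw [hG d₀ (by omega) τ hτ, if_pos hd₀, hn])
      (by rw [R_e1, ← hy]; exact h1)
    rw [he3, R_e3, upd_e1, upd_e3, ← hn] at h3
    exact h3
  have hRt : ∀ (d₀ : ℕ) (T' : ℕ) (a b d d' h w : Z), d₀ = 4 ∨ d₀ = 8 →
      g.V a → g.V b → g.V d → g.V h → g.V w →
      app g tst T' z d = some d' →
      Rn g tst t q c (nod (2 * v + 1) (e + 2) T') n (fun τ => γ (d₀ * 13 ^ n + τ))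
        (R C e i a b d h w, A) =
        some (R C e i a b d' (shl g (List.replicate 9 p) h) w, A) := by
    intro d₀ T' a b d d' h w hd₀ ha hb hd hh hw h1
    have h3 := hKC (fun τ => γ (d₀ * 13 ^ n + τ)) (2 * v + 1) (e + 2) T'
      (R C e i a b d h w) A p d'
      (R_V g.V hC ha hb hd hh hw) (Or.inl (by omega)) hplt
      (by
        intro τ hτ
        rw [← hn] at hτ
        show γ (d₀ * 13 ^ n + τ) = _
        rw [hG d₀ (by omega) τ hτ, if_neg (by omega), if_pos hd₀, hn])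
      (by rw [R_e2, ← hz]; exact h1)
    rw [he3, R_e3, upd_e2, upd_e3, ← hn] at h3
    exact h3
  have hun : ∀ (s : ℕ) (z : Z), app g tst 2 s z = g.un s z := fun s z => rfl
  have hhd : ∀ (s : ℕ) (z : Z), app g tst 1 s z = some (g.hd s z) := fun s z => rfl
  -- contents
  have hVe := hC e
  have hVe1 := hC (e + 1)
  have hVe2 := hC (e + 2)
  have hVe3 := hC (e + 3)
  have hVi := hC i
  set S := g.sh x with hS
  set Y := g.sh y with hYdef
  have hSV : ∀ z, g.V z → g.V (S z) := fun z hz => hg.sh_V x hx z hz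
  have hYV : ∀ z, g.V z → g.V (Y z) := fun z hz => hg.sh_V y hylt z hz
  have hVhl : g.V (g.hd l (C (e + 3))) := hg.hd_V l hllt _ hVe3
  have hVhp : g.V (g.hd p (C (e + 3))) := hg.hd_V p hplt _ hVe3
  have hVhy : g.V (g.hd y (C (e + 1))) := hg.hd_V y hylt _ hVe1
  have hVhz : g.V (g.hd z (C (e + 2))) := hg.hd_V z hzlt _ hVe2
  have hVz9 : g.V (shl g (List.replicate 9 z) (g.hd z (C (e + 2)))) := shl_V hg hzlt 9 _ hVhz
  have hVw : g.V w' := by
    have hlt : t 2 v x y z < g.K := ht _ _ _ _ _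
    unfold app at happ
    split_ifs at happ with h3 h4 h5
    · rw [← Option.some.inj happ]; exact hVi
    · rw [← Option.some.inj happ]; exact hg.hd_V _ hlt _ hVi
    · exact hg.un_V _ hlt _ _ hVi happ
  obtain ⟨B2, hB2⟩ : ∃ B, B = Y (Y (g.hd y (C (e + 1)))) := ⟨_, rfl⟩
  have hVB2 : g.V B2 := hB2 ▸ hYV _ (hYV _ hVhy)
  obtain ⟨B7, hB7⟩ : ∃ B, B = shl g (List.replicate 5 y) B2 := ⟨_, rfl⟩
  have hVB7 : g.V B7 := hB7 ▸ shl_V hg hylt 5 _ hVB2
  have hB9 : g.un y (Y (Y B7)) = some (C (e + 1)) := by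
    have h1 : Y (Y B7) = shl g (List.replicate 9 y) (g.hd y (C (e + 1))) := by
      rw [hB7, hB2]; rfl
    rw [h1]
    exact hg.ok9 y hylt _ hVe1
  have hS9 : shl g (List.replicate 9 x) (C e) = S (S (S (S (S (S (S (S (S (C e))))))))) := rfl
  have key := (hB g tst t q c (nod v i T) n γ (C, A)
    (R C e i (S (S (S (S (S (S (S (S (S (C e))))))))))
      (C (e + 1)) (C (e + 2)) (C (e + 3)) w', A)).2 ⟨fun d => match d with
    | 0 => (R C e i (C e) (C (e + 1)) (C (e + 2)) (C (e + 3)) (C i), A)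
    | 1 => (R C e i (S (C e)) (C (e + 1)) (C (e + 2)) (g.hd l (C (e + 3))) (C i), A)
    | 2 => (R C e i (S (C e)) (g.hd y (C (e + 1))) (C (e + 2))
        (shl g (List.replicate 9 l) (g.hd l (C (e + 3)))) (C i), A)
    | 3 => (R C e i (S (S (C e))) (g.hd y (C (e + 1))) (C (e + 2)) (C (e + 3)) (C i), A)
    | 4 => (R C e i (S (S (S (C e)))) (Y (g.hd y (C (e + 1)))) (C (e + 2))
        (g.hd p (C (e + 3))) (C i), A)
    | 5 => (R C e i (S (S (S (C e)))) (Y (g.hd y (C (e + 1)))) (g.hd z (C (e + 2)))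
        (shl g (List.replicate 9 p) (g.hd p (C (e + 3)))) (C i), A)
    | 6 => (R C e i (S (S (S (S (C e))))) B2 (g.hd z (C (e + 2))) (C (e + 3)) (C i), A)
    | 7 => (R C e i (S (S (S (S (S (C e)))))) B7
        (shl g (List.replicate 9 z) (g.hd z (C (e + 2)))) (C (e + 3)) w', A)
    | 8 => (R C e i (S (S (S (S (S (S (C e))))))) (Y B7)
        (shl g (List.replicate 9 z) (g.hd z (C (e + 2)))) (g.hd p (C (e + 3))) w', A)
    | 9 => (R C e i (S (S (S (S (S (S (C e))))))) (Y B7) (C (e + 2))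
        (shl g (List.replicate 9 p) (g.hd p (C (e + 3)))) w', A)
    | 10 => (R C e i (S (S (S (S (S (S (S (C e)))))))) (Y (Y B7)) (C (e + 2)) (C (e + 3)) w', A)
    | 11 => (R C e i (S (S (S (S (S (S (S (S (C e))))))))) (Y (Y B7)) (C (e + 2))
        (g.hd l (C (e + 3))) w', A)
    | 12 => (R C e i (S (S (S (S (S (S (S (S (C e))))))))) (C (e + 1)) (C (e + 2))
        (shl g (List.replicate 9 l) (g.hd l (C (e + 3)))) w', A)
    | _ => (R C e i (S (S (S (S (S (S (S (S (S (C e)))))))))) (C (e + 1)) (C (e + 2))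
        (C (e + 3)) w', A), ?_, rfl, ?_⟩
  · have h3 : Function.update (Function.update C i w') e (shl g (List.replicate 9 x) (C e)) =
        Function.update (Function.update
          (R C e i (C e) (C (e + 1)) (C (e + 2)) (C (e + 3)) (C i)) i w') e
          (shl g (List.replicate 9 x) (C e)) := by rw [R_self]
    rw [h3, upd_i i0 i1 i2 i3, upd_e, hS9, ← Nat.add_assoc, ← hn]
    exact key
  · show (R C e i (C e) (C (e + 1)) (C (e + 2)) (C (e + 3)) (C i), A) = (C, A)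
    rw [R_self]
  · intro d hd
    have hsub : sub q (nod v i T) n d = phK e v i T d := by
      rw [hn, hE.2.1 q m u v i T d hu huq, he]
    rw [hsub]
    interval_cases d
    · refine run0 hE hK1 ?_ (hG0 0 (by norm_num) (by norm_num) (by norm_num)) (hl ▸ hhd _ _)
      show γ (0 * 13 ^ n + 0) = _
      rw [hG 0 (by norm_num) 0 hpos]; rfl
    · exact hL 1 1 _ _ _ _ _ _ (Or.inl rfl) (hSV _ hVe) hVe1 hVe2 hVhl hVi (hhd _ _)
    · refine run0 hE hK1 ?_ (hG0 2 (by norm_num) (by norm_num) (by norm_num))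
        (by rw [← hl]; exact (hun _ _).trans (hg.ok9 l hllt _ hVe3))
      show γ (2 * 13 ^ n + 0) = _
      rw [hG 2 (by norm_num) 0 hpos]; rfl
    · refine run1 hE hylt ?_ (hG0 3 (by norm_num) (by norm_num) (by norm_num)) (hp ▸ hhd _ _)
      show γ (3 * 13 ^ n + 0) = _
      rw [hG 3 (by norm_num) 0 hpos]; rfl
    · exact hRt 4 1 _ _ _ _ _ _ (Or.inl rfl) (hSV _ (hSV _ (hSV _ hVe))) (hYV _ hVhy) hVe2 hVhp
        hVi (hhd _ _)
    · rw [hB2]
      refine run1 hE hylt ?_ (hG0 5 (by norm_num) (by norm_num) (by norm_num))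
        (by rw [← hp]; exact (hun _ _).trans (hg.ok9 p hplt _ hVe3))
      show γ (5 * 13 ^ n + 0) = _
      rw [hG 5 (by norm_num) 0 hpos]; rfl
    · rw [hB7]
      refine run2 hE hylt hzlt i0 i1 i2 i3 ?_ (hG0 6 (by norm_num) (by norm_num) (by norm_num))
        happ
      show γ (6 * 13 ^ n + 0) = _
      rw [hG 6 (by norm_num) 0 hpos]; rfl
    · refine run1 hE hylt ?_ (hG0 7 (by norm_num) (by norm_num) (by norm_num)) (hp ▸ hhd _ _)
      show γ (7 * 13 ^ n + 0) = _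
      rw [hG 7 (by norm_num) 0 hpos]; rfl
    · exact hRt 8 2 _ _ _ _ _ _ (Or.inr rfl)
        (hSV _ (hSV _ (hSV _ (hSV _ (hSV _ (hSV _ hVe)))))) (hYV _ hVB7) hVz9 hVhp hVw
        ((hun _ _).trans (hg.ok9 z hzlt _ hVe2))
    · refine run1 hE hylt ?_ (hG0 9 (by norm_num) (by norm_num) (by norm_num))
        (by rw [← hp]; exact (hun _ _).trans (hg.ok9 p hplt _ hVe3))
      show γ (9 * 13 ^ n + 0) = _
      rw [hG 9 (by norm_num) 0 hpos]; rfl
    · refine run0 hE hK1 ?_ (hG0 10 (by norm_num) (by norm_num) (by norm_num)) (hl ▸ hhd _ _)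
      show γ (10 * 13 ^ n + 0) = _
      rw [hG 10 (by norm_num) 0 hpos]; rfl
    · exact hL 11 2 _ _ _ _ _ _ (Or.inr rfl)
        (hSV _ (hSV _ (hSV _ (hSV _ (hSV _ (hSV _ (hSV _ (hSV _ hVe))))))))
        (hYV _ (hYV _ hVB7)) hVe2 hVhl hVw ((hun _ _).trans hB9)
    · refine run0 hE hK1 ?_ (hG0 12 (by norm_num) (by norm_num) (by norm_num))
        (by rw [← hl]; exact (hun _ _).trans (hg.ok9 l hllt _ hVe3))
      show γ (12 * 13 ^ n + 0) = _
      rw [hG 12 (by norm_num) 0 hpos]; rfl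

end Pool.Agent.Helper26.CTG
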